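import Pool.Agent.W687.BlockD
import Pool.Agent.W687.Mark

set_option autoImplicit false

/-!
# Biorthogonal systems whose dual parts have weak*-closed partial spans
-/

namespace Pool.Agent.Results.MP_0543b0_an.AllPartialSpansWeakStarClosed

open Filter Topology

section aux

variable {𝕜 : Type*} [RCLike 𝕜] {E : Type*} [NormedAddCommGroup E] [NormedSpace 𝕜 E]

/-- A vector outside a closed subspace is separated from it by a functional. -/
theorem exists_sep (p : Submodule 𝕜 E) (hp : IsClosed (p : Set E)) (v : E) (hv : v ∉ p) :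
    ∃ f : StrongDual 𝕜 E, (∀ u ∈ p, f u = 0) ∧ f v ≠ 0 := by
  have : IsClosed (p : Set E) := hp
  have hne : p.mkQ v ≠ 0 := by
    intro h
    exact hv ((Submodule.Quotient.mk_eq_zero p).1 h)
  obtain ⟨g, _, hg⟩ := exists_dual_vector 𝕜 (p.mkQ v) (norm_ne_zero_iff.2 hne)
  let q : E →L[𝕜] E ⧸ p := ⟨p.mkQ, continuous_quotient_mk'⟩
  refine ⟨g.comp q, ?_, ?_⟩
  · intro u hu
    have h2 : q u = 0 := (Submodule.Quotient.mk_eq_zero p).2 hu
    rw [ContinuousLinearMap.comp_apply, h2, map_zero]
  · have h3 : (g.comp q) v = (‖p.mkQ v‖ : 𝕜) := hg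
    rw [h3]
    exact_mod_cast norm_ne_zero_iff.2 hne

/-- A normed space with separable dual has a sequence with dense span. -/
theorem exists_dense_seq (hsep : TopologicalSpace.SeparableSpace (StrongDual 𝕜 E)) :
    ∃ a : ℕ → E, Dense (Submodule.span 𝕜 (Set.range a) : Set E) := by
  have h1 : ∀ f : StrongDual 𝕜 E, ∃ a : E, ‖a‖ ≤ 1 ∧ ‖f‖ / 2 ≤ ‖f a‖ := by
    intro f
    by_cases hf : f = 0
    · exact ⟨0, by simp, by simp [hf]⟩
    · have hf0 : 0 < ‖f‖ := norm_pos_iff.2 hf
      obtain ⟨a, ha1, ha2⟩ := f.exists_lt_apply_of_lt_opNorm (r := ‖f‖ / 2) (by linarith)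
      exact ⟨a, ha1.le, ha2.le⟩
  choose a ha1 ha2 using h1
  refine ⟨fun n => a (TopologicalSpace.denseSeq (StrongDual 𝕜 E) n), ?_⟩
  set p := (Submodule.span 𝕜 (Set.range fun n =>
    a (TopologicalSpace.denseSeq (StrongDual 𝕜 E) n))).topologicalClosure with hp
  have hmem : ∀ n, a (TopologicalSpace.denseSeq (StrongDual 𝕜 E) n) ∈ p := fun n =>
    Submodule.le_topologicalClosure _ (Submodule.subset_span ⟨n, rfl⟩)
  have htop : p = ⊤ := by
    by_contra hne
    obtain ⟨v, _, hv⟩ := SetLike.exists_of_lt (lt_top_iff_ne_top.2 hne)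
    obtain ⟨f, hf1, hf2⟩ := exists_sep p (Submodule.isClosed_topologicalClosure _) v hv
    have hf0 : 0 < ‖f‖ := norm_pos_iff.2 (by rintro rfl; exact hf2 rfl)
    obtain ⟨n, hn⟩ := (TopologicalSpace.denseRange_denseSeq (StrongDual 𝕜 E)).exists_dist_lt f
      (show 0 < ‖f‖ / 4 by positivity)
    set g := TopologicalSpace.denseSeq (StrongDual 𝕜 E) n with hg
    rw [dist_eq_norm] at hn
    have h2 : ‖g (a g)‖ ≤ ‖f - g‖ := by
      have h3 : g (a g) = -((f - g) (a g)) := by
        rw [sub_apply, hf1 (a g) (hmem n)]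
        ring
      rw [h3, norm_neg]
      calc ‖(f - g) (a g)‖ ≤ ‖f - g‖ * ‖a g‖ := (f - g).le_opNorm _
        _ ≤ ‖f - g‖ * 1 := mul_le_mul_of_nonneg_left (ha1 g) (norm_nonneg _)
        _ = ‖f - g‖ := mul_one _
    have h3 := ha2 g
    have h4 : ‖f‖ ≤ ‖f - g‖ + ‖g‖ := by
      calc ‖f‖ = ‖(f - g) + g‖ := by rw [sub_add_cancel]
        _ ≤ _ := norm_add_le _ _
    linarith
  exact Submodule.dense_iff_topologicalClosure_eq_top.2 htop

theorem dual_infinite (hinf : ¬ FiniteDimensional 𝕜 E) :
    ¬ FiniteDimensional 𝕜 (StrongDual 𝕜 E) := by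
  intro h
  apply hinf
  have h1 : FiniteDimensional 𝕜 (StrongDual 𝕜 E →ₗ[𝕜] 𝕜) := inferInstance
  let T : E →ₗ[𝕜] (StrongDual 𝕜 E →ₗ[𝕜] 𝕜) :=
    { toFun := fun v =>
        { toFun := fun f => f v
          map_add' := fun f g => rfl
          map_smul' := fun c f => rfl }
      map_add' := fun v w => by ext f; exact map_add f v w
      map_smul' := fun c v => by ext f; exact map_smul f c v }
  refine Module.Finite.of_injective T ?_
  rw [← LinearMap.ker_eq_bot, LinearMap.ker_eq_bot']
  intro v hv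
  by_contra hne
  obtain ⟨f, _, hf⟩ := exists_dual_vector 𝕜 v (norm_ne_zero_iff.2 hne)
  have h2 : T v f = 0 := by rw [hv]; rfl
  have h3 : f v = 0 := h2
  rw [hf] at h3
  exact (norm_ne_zero_iff.2 hne) (by exact_mod_cast h3)

end aux

/-- **Theorem.** Let `E` be an infinite-dimensional Banach space (over `ℝ` or `ℂ`) whose dual is
norm separable.  Then there is a biorthogonal system `(x n, f n)` with `[x n] = E`,
`[f n] = E*`, such that for every set `A` of indices the norm-closed span of `{f n : n ∈ A}` is the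
annihilator of `{x j : j ∉ A}`, and is weak*-closed. -/
theorem result (𝕜 : Type*) [RCLike 𝕜] (E : Type*) [NormedAddCommGroup E] [NormedSpace 𝕜 E]
    [CompleteSpace E] (hinf : ¬ FiniteDimensional 𝕜 E)
    (hsep : TopologicalSpace.SeparableSpace (StrongDual 𝕜 E)) :
    ∃ (x : ℕ → E) (f : ℕ → StrongDual 𝕜 E),
      (∀ i j, f i (x j) = if i = j then 1 else 0) ∧
      (Submodule.span 𝕜 (Set.range x)).topologicalClosure = ⊤ ∧
      (Submodule.span 𝕜 (Set.range f)).topologicalClosure = ⊤ ∧
      ∀ A : Set ℕ,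
        (∀ g : StrongDual 𝕜 E, g ∈ (Submodule.span 𝕜 (f '' A)).topologicalClosure ↔
          ∀ j, j ∉ A → g (x j) = 0) ∧
        IsClosed (StrongDual.toWeakDual ''
          ((Submodule.span 𝕜 (f '' A)).topologicalClosure : Set (StrongDual 𝕜 E))) := by
  obtain ⟨a, ha⟩ := exists_dense_seq hsep
  obtain ⟨e, z, hb, hae, hbz⟩ := Pool.Agent.W687.Mark.exists_biorthogonal hinf
    (dual_infinite hinf) a (TopologicalSpace.denseSeq (StrongDual 𝕜 E))
  have he : Dense (Submodule.span 𝕜 (Set.range e) : Set E) := by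
    refine ha.mono (Submodule.span_le.2 ?_)
    rintro _ ⟨n, rfl⟩
    exact hae n
  have hz : Dense (Submodule.span 𝕜 (Set.range z) : Set (StrongDual 𝕜 E)) := by
    refine (TopologicalSpace.denseRange_denseSeq (StrongDual 𝕜 E)).mono ?_
    rintro _ ⟨n, rfl⟩
    exact hbz n
  obtain ⟨f, x, hbi, hf, hx, hstrong⟩ := Pool.Agent.W687.Block.main hb hz he
  have hchar : ∀ (A : Set ℕ) (g : StrongDual 𝕜 E),
      g ∈ (Submodule.span 𝕜 (f '' A)).topologicalClosure ↔ ∀ j, j ∉ A → g (x j) = 0 := by
    intro A g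
    constructor
    · intro hg j hj
      have hcl : IsClosed {g : StrongDual 𝕜 E | g (x j) = 0} :=
        isClosed_eq (ContinuousLinearMap.apply 𝕜 𝕜 (x j)).continuous continuous_const
      have hsub : ((Submodule.span 𝕜 (f '' A) : Submodule 𝕜 (StrongDual 𝕜 E)) :
          Set (StrongDual 𝕜 E)) ⊆ {g : StrongDual 𝕜 E | g (x j) = 0} := by
        intro h hh
        induction hh using Submodule.span_induction with
        | mem v hv =>
          obtain ⟨n, hn, rfl⟩ := hv
          show f n (x j) = 0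
          rw [hbi, if_neg]
          rintro rfl
          exact hj hn
        | zero => rfl
        | add u v _ _ hu hv =>
          show u (x j) + v (x j) = 0
          rw [show u (x j) = 0 from hu, show v (x j) = 0 from hv, add_zero]
        | smul c v _ hv =>
          show c * v (x j) = 0
          rw [show v (x j) = 0 from hv, mul_zero]
      exact closure_minimal hsub hcl hg
    · intro hg
      have h1 := hstrong g
      have h2 : f '' {n | g (x n) ≠ 0} ⊆ f '' A := by
        refine Set.image_mono ?_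
        intro n hn
        by_contra hnA
        exact hn (hg n hnA)
      exact closure_mono (Submodule.span_mono h2) h1
  refine ⟨x, f, hbi, ?_, ?_, fun A => ⟨hchar A, ?_⟩⟩
  · exact Submodule.dense_iff_topologicalClosure_eq_top.1 hx
  · exact Submodule.dense_iff_topologicalClosure_eq_top.1 hf
  · have hset : (StrongDual.toWeakDual '' ((Submodule.span 𝕜 (f '' A)).topologicalClosure :
        Set (StrongDual 𝕜 E)) : Set (WeakDual 𝕜 E)) =
        ⋂ j ∈ {j | j ∉ A}, {h : WeakDual 𝕜 E | h (x j) = 0} := by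
      ext h
      simp only [Set.mem_image, SetLike.mem_coe, Set.mem_iInter, Set.mem_ofPred_eq]
      constructor
      · rintro ⟨g, hg, rfl⟩ j hj
        exact (hchar A g).1 hg j hj
      · intro hh
        exact ⟨WeakDual.toStrongDual h, (hchar A _).2 hh, rfl⟩
    rw [hset]
    refine isClosed_biInter fun j _ => ?_
    exact isClosed_eq (WeakBilin.eval_continuous (topDualPairing 𝕜 E) (x j)) continuous_const

end Pool.Agent.Results.MP_0543b0_an.AllPartialSpansWeakStarClosed
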